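import Pool.Agent.W424.AR.Bdd
import Pool.Agent.TH291.NC.Rect

/-!
# The exploration path in rectangles: dependence of the hitting probabilities on the aspect ratio

In a rectangle the exploration path of critical bond percolation on `ℤ²` started at a corner, with an
open vertical side and a dual-open horizontal side next to that corner, comes to the opposite
vertical side before the opposite horizontal side if and only if there is an open left-right
crossing.  So its hitting law is given by the crossing probability `cross w h`.  Here the dependence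
of `cross w h` on `w` and `h` is determined up to constants.
-/

set_option autoImplicit false

namespace Pool.Agent.Results.MP_fe58d8_pr.AspectRatio

open MeasureTheory Filter Topology

/-- The square lattice. -/
def z2 : SimpleGraph (ℤ × ℤ) where
  Adj u v := |u.1 - v.1| + |u.2 - v.2| = 1
  symm := ⟨fun u v h => by rw [abs_sub_comm v.1, abs_sub_comm v.2]; exact h⟩
  loopless := ⟨fun u h => by simp at h⟩

/-- The critical parameter. -/
noncomputable def half : unitInterval := ⟨1/2, by norm_num, by norm_num⟩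

/-- Critical bond percolation: every edge is open (`true`) with probability `1/2`,
independently. -/
noncomputable def law : Measure (z2.edgeSet → Bool) :=
  Measure.infinitePi (fun _ => ProbabilityTheory.bernoulliMeasure true false half)

/-- The graph of the open edges with both ends in the rectangle `[0,w] × [0,h]`. -/
def rectGraph (w h : ℕ) (ω : z2.edgeSet → Bool) : SimpleGraph (ℤ × ℤ) :=
  SimpleGraph.fromEdgeSet {e | (∃ he : e ∈ z2.edgeSet, ω ⟨e, he⟩ = true) ∧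
    ∀ v ∈ e, (0 ≤ v.1 ∧ v.1 ≤ w) ∧ (0 ≤ v.2 ∧ v.2 ≤ h)}

/-- The probability that an open path of the rectangle `[0,w] × [0,h]` joins its left side to its
right side. -/
noncomputable def cross (w h : ℕ) : ℝ :=
  law.real {ω | ∃ y z : ℤ, (0 ≤ y ∧ y ≤ h) ∧ (0 ≤ z ∧ z ≤ h) ∧
    (rectGraph w h ω).Reachable (0, y) ((w : ℤ), z)}

theorem cross_eq {w : ℕ} (h : ℕ) (hw : 1 ≤ w) : cross w h = H974.hh (1 / 2) w h := by
  have h1 := TH291.NC.cross_eq half h hw
  exact h1

/-- **Theorem.**  Let `cross w h` be the probability of an open left-right crossing of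
`[0,w] × [0,h]` for critical bond percolation on `ℤ²`.

(1) For rectangles that are not thin (`h ≤ K w`) the relative increments in the width are of order
`1 / h`, however long the rectangle is.

(2) Dually, for `w ≤ K h` the increments in the height are of order `(1 - cross w h) / w`.

(3) An inequality with explicit constants for all the rectangles.

(4) In the scaling `⌊L n⌋ × ⌊l n⌋` the crossing probabilities are locally bi-Lipschitz in both side
lengths.

(5) So every limit `F L l` along a subsequence is strictly monotone and locally bi-Lipschitz in both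
side lengths, with values bounded away from `0` and `1`. -/
theorem result :
    (∀ K : ℕ, 1 ≤ K → ∃ c C : ℝ, 0 < c ∧ 0 < C ∧ ∀ w h : ℕ, 1 ≤ w → 1 ≤ h → h ≤ K * w →
      c * cross w h / h ≤ cross w h - cross (w + 1) h ∧
      cross w h - cross (w + 1) h ≤ C * cross w h / h) ∧
    (∀ K : ℕ, 1 ≤ K → ∃ c C : ℝ, 0 < c ∧ 0 < C ∧ ∀ w h : ℕ, 2 ≤ w → 1 ≤ h → w ≤ K * h →
      c * (1 - cross w h) / w ≤ cross w (h + 1) - cross w h ∧
      cross w (h + 1) - cross w h ≤ C * (1 - cross w h) / w) ∧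
    (∀ w h : ℕ, 1 ≤ w →
      cross w h * (1 - cross (w + 1) h) ≤ 2 * ((h : ℝ) + 1) * (cross w h - cross (w + 1) h)) ∧
    (∀ K : ℕ, 1 ≤ K → ∃ c C : ℝ, 0 < c ∧ 0 < C ∧
      (∀ L L' l : ℝ, 1 / (K : ℝ) ≤ L → L < L' → L' ≤ K → 1 / (K : ℝ) ≤ l → l ≤ K →
        ∀ᶠ n : ℕ in atTop,
          c * (L' - L) ≤ cross ⌊L * n⌋₊ ⌊l * n⌋₊ - cross ⌊L' * n⌋₊ ⌊l * n⌋₊ ∧
          cross ⌊L * n⌋₊ ⌊l * n⌋₊ - cross ⌊L' * n⌋₊ ⌊l * n⌋₊ ≤ C * (L' - L)) ∧
      (∀ L l l' : ℝ, 1 / (K : ℝ) ≤ L → L ≤ K → 1 / (K : ℝ) ≤ l → l < l' → l' ≤ K →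
        ∀ᶠ n : ℕ in atTop,
          c * (l' - l) ≤ cross ⌊L * n⌋₊ ⌊l' * n⌋₊ - cross ⌊L * n⌋₊ ⌊l * n⌋₊ ∧
          cross ⌊L * n⌋₊ ⌊l' * n⌋₊ - cross ⌊L * n⌋₊ ⌊l * n⌋₊ ≤ C * (l' - l))) ∧
    (∀ K : ℕ, 1 ≤ K → ∃ c C : ℝ, 0 < c ∧ 0 < C ∧
      ∀ (m : ℕ → ℕ) (F : ℝ → ℝ → ℝ), Tendsto m atTop atTop →
        (∀ L l : ℝ, 0 < L → 0 < l →
          Tendsto (fun k => cross ⌊L * m k⌋₊ ⌊l * m k⌋₊) atTop (𝓝 (F L l))) →
        (∀ L L' l : ℝ, 1 / (K : ℝ) ≤ L → L < L' → L' ≤ K → 1 / (K : ℝ) ≤ l → l ≤ K →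
          c * (L' - L) ≤ F L l - F L' l ∧ F L l - F L' l ≤ C * (L' - L)) ∧
        (∀ L l l' : ℝ, 1 / (K : ℝ) ≤ L → L ≤ K → 1 / (K : ℝ) ≤ l → l < l' → l' ≤ K →
          c * (l' - l) ≤ F L l' - F L l ∧ F L l' - F L l ≤ C * (l' - l)) ∧
        (∀ L l : ℝ, 1 / (K : ℝ) ≤ L → L ≤ K → 1 / (K : ℝ) ≤ l → l ≤ K →
          c ≤ F L l ∧ F L l ≤ 1 - c)) := by
  have hsc : ∀ K : ℕ, 1 ≤ K → ∃ c C : ℝ, 0 < c ∧ 0 < C ∧
      (∀ L L' l : ℝ, 1 / (K : ℝ) ≤ L → L < L' → L' ≤ K → 1 / (K : ℝ) ≤ l → l ≤ K →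
        ∀ᶠ n : ℕ in atTop,
          c * (L' - L) ≤ cross ⌊L * n⌋₊ ⌊l * n⌋₊ - cross ⌊L' * n⌋₊ ⌊l * n⌋₊ ∧
          cross ⌊L * n⌋₊ ⌊l * n⌋₊ - cross ⌊L' * n⌋₊ ⌊l * n⌋₊ ≤ C * (L' - L)) ∧
      (∀ L l l' : ℝ, 1 / (K : ℝ) ≤ L → L ≤ K → 1 / (K : ℝ) ≤ l → l < l' → l' ≤ K →
        ∀ᶠ n : ℕ in atTop,
          c * (l' - l) ≤ cross ⌊L * n⌋₊ ⌊l' * n⌋₊ - cross ⌊L * n⌋₊ ⌊l * n⌋₊ ∧
          cross ⌊L * n⌋₊ ⌊l' * n⌋₊ - cross ⌊L * n⌋₊ ⌊l * n⌋₊ ≤ C * (l' - l)) := by
    intro K hK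
    obtain ⟨c, C, hc, hC, h1, h2⟩ := Pool.Agent.W424.AR.scaling K hK
    have hpos : ∀ L : ℝ, 1 / (K : ℝ) ≤ L → ∀ᶠ n : ℕ in atTop, 1 ≤ ⌊L * n⌋₊ := by
      intro L hL
      have hKr : (1:ℝ) ≤ K := by exact_mod_cast hK
      have hL0 : 0 < L := lt_of_lt_of_le (by positivity) hL
      obtain ⟨N, hN⟩ := exists_nat_ge (1 / L)
      filter_upwards [eventually_ge_atTop N] with n hn
      apply Nat.le_floor
      have : (N:ℝ) ≤ n := by exact_mod_cast hn
      rw [div_le_iff₀ hL0] at hN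
      push_cast
      nlinarith
    refine ⟨c, C, hc, hC, ?_, ?_⟩
    · intro L L' l a1 a2 a3 a4 a5
      filter_upwards [h1 L L' l a1 a2 a3 a4 a5, hpos L a1, hpos L' (a1.trans a2.le)]
        with n b1 b2 b3
      rw [cross_eq _ b2, cross_eq _ b3]
      exact b1
    · intro L l l' a1 a2 a3 a4 a5
      filter_upwards [h2 L l l' a1 a2 a3 a4 a5, hpos L a1] with n b1 b2
      rw [cross_eq _ b2, cross_eq _ b2]
      exact b1
  refine ⟨?_, ?_, ?_, hsc, ?_⟩
  · intro K hK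
    obtain ⟨c, C, hc, hC, h⟩ := Pool.Agent.W424.AR.order K hK
    refine ⟨c, C, hc, hC, ?_⟩
    intro w h' hw hh hwh
    rw [cross_eq _ hw, cross_eq _ (by omega)]
    have := h w h' (by exact_mod_cast hw) (by exact_mod_cast hh) (by exact_mod_cast hwh)
    unfold Pool.Agent.W424.AR.DD at this
    push_cast at this ⊢
    exact this
  · intro K hK
    obtain ⟨c, C, hc, hC, h⟩ := Pool.Agent.W424.AR.orderH K hK
    refine ⟨c, C, hc, hC, ?_⟩
    intro w h' hw hh hwh
    rw [cross_eq _ (by omega), cross_eq _ (by omega)]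
    have := h w h' (by exact_mod_cast hw) (by exact_mod_cast hh) (by exact_mod_cast hwh)
    push_cast at this ⊢
    exact this
  · intro w h hw
    rw [cross_eq _ hw, cross_eq _ (by omega)]
    have := Pool.Agent.W424.AR.low_explicit (w := (w : ℤ)) (h := (h : ℤ)) (by exact_mod_cast hw)
      (by positivity)
    unfold Pool.Agent.W424.AR.DD at this
    push_cast at this ⊢
    exact this
  · intro K hK
    obtain ⟨c, C, hc, hC, h1, h2⟩ := hsc K hK
    obtain ⟨c1, hc1, -, hr⟩ := Pool.Agent.W424.AR.rsw (2 * K * K) (by nlinarith)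
    obtain ⟨c2, hc2, hd⟩ := Pool.Agent.W424.AR.rsw_dual (2 * K * K) (by nlinarith)
    refine ⟨min c (min c1 c2), C, lt_min hc (lt_min hc1 hc2), hC, ?_⟩
    intro m F hm hF
    have hKr : (1:ℝ) ≤ K := by exact_mod_cast hK
    have hK0 : 0 < 1 / (K:ℝ) := by positivity
    have hcm : min c (min c1 c2) ≤ c := min_le_left _ _
    refine ⟨?_, ?_, ?_⟩
    · intro L L' l a1 a2 a3 a4 a5
      have hev := hm.eventually (h1 L L' l a1 a2 a3 a4 a5)
      have t1 := (hF L l (by linarith) (by linarith)).sub (hF L' l (by linarith) (by linarith))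
      have g1 := ge_of_tendsto t1 (hev.mono fun k hk => hk.1)
      have g2 := le_of_tendsto t1 (hev.mono fun k hk => hk.2)
      refine ⟨le_trans ?_ g1, g2⟩
      exact mul_le_mul_of_nonneg_right hcm (by linarith)
    · intro L l l' a1 a2 a3 a4 a5
      have hev := hm.eventually (h2 L l l' a1 a2 a3 a4 a5)
      have t1 := (hF L l' (by linarith) (by linarith)).sub (hF L l (by linarith) (by linarith))
      have g1 := ge_of_tendsto t1 (hev.mono fun k hk => hk.1)
      have g2 := le_of_tendsto t1 (hev.mono fun k hk => hk.2)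
      refine ⟨le_trans ?_ g1, g2⟩
      exact mul_le_mul_of_nonneg_right hcm (by linarith)
    · intro L l a1 a2 a3 a4
      have t1 := hF L l (by linarith) (by linarith)
      have hev : ∀ᶠ n : ℕ in atTop, min c1 c2 ≤ cross ⌊L * n⌋₊ ⌊l * n⌋₊ ∧
          cross ⌊L * n⌋₊ ⌊l * n⌋₊ ≤ 1 - min c1 c2 := by
        filter_upwards [eventually_ge_atTop (2 * K * 2)] with n hn
        obtain ⟨f1, f2, f3⟩ := Pool.Agent.W424.AR.floors K hK a1 a2 hn
        obtain ⟨f4, f5, f6⟩ := Pool.Agent.W424.AR.floors K hK a3 a4 hn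
        have k1 : (⌊L * n⌋₊ : ℝ) ≤ 2 * K * K * ⌊l * n⌋₊ := by
          rw [div_le_iff₀ (by positivity)] at f4
          nlinarith
        have k2 : (⌊l * n⌋₊ : ℝ) ≤ 2 * K * K * ⌊L * n⌋₊ := by
          rw [div_le_iff₀ (by positivity)] at f1
          nlinarith
        have k1' : ((⌊L * n⌋₊ : ℕ) : ℤ) ≤ ((2 * K * K : ℕ) : ℤ) * ((⌊l * n⌋₊ : ℕ) : ℤ) := by
          exact_mod_cast k1
        have k2' : ((⌊l * n⌋₊ : ℕ) : ℤ) ≤ ((2 * K * K : ℕ) : ℤ) * ((⌊L * n⌋₊ : ℕ) : ℤ) := by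
          exact_mod_cast k2
        rw [cross_eq _ (by omega)]
        have r1 := hr _ _ (by omega) (by omega) k1'
        have r2 := hd _ _ (by omega) (by omega) k2'
        constructor
        · exact (min_le_left _ _).trans r1
        · have := min_le_right c1 c2
          linarith
      have hev2 := hm.eventually hev
      have g1 := ge_of_tendsto t1 (hev2.mono fun k hk => hk.1)
      have g2 := le_of_tendsto t1 (hev2.mono fun k hk => hk.2)
      have := min_le_right c (min c1 c2)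
      constructor <;> linarith

end Pool.Agent.Results.MP_fe58d8_pr.AspectRatio
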