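import Pool.Agent.H980R2.Cont.Main
import Pool.Agent.H980R2.Cont.Mom

/-!
Critical bond percolation on `ℤ²` (`p = 1/2`) in half-infinite strips: the exact law, the limit law and
the limits of all moments of the number of vertices of the flat end which are joined to one long side
(the contacts of the exploration path started at the corner with the flat end).

Coordinates: the column of the vertex `(u, v)` is `u - v`, its height `u + v`.
-/

set_option autoImplicit false

namespace Pool.Agent.Results.MP_fe58d8_pr.ContactsLaw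

open MeasureTheory Filter Topology Finset

/-- edges of `ℤ²`: `(u,v,false)` joins `(u,v)` and `(u+1,v)`; `(u,v,true)` joins `(u,v)` and
`(u,v+1)`. -/
abbrev Edge := ℤ × ℤ × Bool

/-- configurations (`true` = open) -/
abbrev Conf := Edge → Bool

/-- `x` and `y` are the two ends of an open edge -/
def OpenAdj (ω : Conf) (x y : ℤ × ℤ) : Prop :=
  (y = (x.1 + 1, x.2) ∧ ω (x.1, x.2, false) = true) ∨
  (x = (y.1 + 1, y.2) ∧ ω (y.1, y.2, false) = true) ∨
  (y = (x.1, x.2 + 1) ∧ ω (x.1, x.2, true) = true) ∨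
  (x = (y.1, y.2 + 1) ∧ ω (y.1, y.2, true) = true)

/-- bond percolation at `p = 1/2`: independent fair coins on the edges -/
noncomputable def perc : Measure Conf :=
  Measure.infinitePi (fun _ : Edge => (PMF.uniformOfFintype Bool).toMeasure)

/-- the half-infinite strip `0 ≤ u - v ≤ L`, `u + v ≤ 1` -/
def InStrip (L : ℕ) (x : ℤ × ℤ) : Prop := 0 ≤ x.1 - x.2 ∧ x.1 - x.2 ≤ L ∧ x.1 + x.2 ≤ 1

/-- open path inside the half-infinite strip -/
def Joined (L : ℕ) (ω : Conf) : ℤ × ℤ → ℤ × ℤ → Prop :=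
  Relation.ReflTransGen (fun a b => OpenAdj ω a b ∧ InStrip L a ∧ InStrip L b)

/-- the vertices of the flat end `u + v = 1` of the strip, not on the right side `u - v = L`, which
are joined to the right side by an open path of the strip -/
def touch (L : ℕ) (ω : Conf) : Set (ℤ × ℤ) :=
  {x | x.1 + x.2 = 1 ∧ 0 ≤ x.1 - x.2 ∧ x.1 - x.2 < (L : ℤ) ∧
    ∃ y : ℤ × ℤ, y.1 - y.2 = (L : ℤ) ∧ Joined L ω x y}

/-- the weights of the exact law -/
noncomputable def weight (n s : ℕ) : ℝ :=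
  (s:ℝ) * (s+1) * ∏ i ∈ Icc 1 (s-1),
    (2 * (2*(n:ℝ) + 2*i + 3) * ((n:ℝ) - i)) / ((2*(n:ℝ) - i - 1) * (2*n + i + 4))

/-- their tails -/
noncomputable def tail (n k : ℕ) : ℝ := ∑ s ∈ Icc k n, weight n s

/-- Exact law for the strip of width `2 n + 1`; the limit law of `touch / L^(2/3)` has the density
`exp (-x³) / Γ(4/3)` on `[0, ∞)`; all moments converge. -/
theorem result :
    (∀ n k : ℕ, 1 ≤ n → k ≤ n → perc.real {ω | (touch (2*n+1) ω).ncard = k} =
      tail n k / ∑ j ∈ range (n+1), tail n j) ∧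
    (∀ t : ℝ, 0 ≤ t → Tendsto (fun n : ℕ => perc.real {ω | (((touch (2*n+1) ω).ncard : ℕ) : ℝ) ≤
      t * (2*(n:ℝ)+1)^((2:ℝ)/3)}) atTop
      (𝓝 ((∫ x in (0:ℝ)..t, Real.exp (-x^3)) / Real.Gamma (4/3)))) ∧
    (∀ m : ℕ, Tendsto (fun n : ℕ =>
      ∫ ω, (((touch (2*n+1) ω).ncard : ℝ) / (2*(n:ℝ)+1)^((2:ℝ)/3))^m ∂perc)
      atTop (𝓝 (Real.Gamma (((m:ℝ)+1)/3) / Real.Gamma (1/3)))) :=
  ⟨fun n k hn hk => Pool.Agent.H980R2.Cont.main n hn k hk,
    fun t ht => Pool.Agent.H980R2.Cont.limit_law t ht,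
    fun m => Pool.Agent.H980R2.Cont.moments m⟩

end Pool.Agent.Results.MP_fe58d8_pr.ContactsLaw
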