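import Pool.Agent.W808.KC.All

/-!
Critical bond percolation on the square lattice in the quarter-plane `{(x, y) : y ≤ x, -1 ≤ x + y}`
(free boundary): sharp bounds for the probability of `j` alternating arms from the corner to distance
`R`, for every `j ≥ 1`; and in the half-infinite strips `{(x, y) : y ≤ x, -1 ≤ x + y ≤ 2 n + 1}`: the
exact probability that `j` alternating arms join the two corners, for all `j` and `n`.
-/

set_option autoImplicit false

namespace Pool.Agent.Results.MP_fe58d8_pr.CornerArms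

open Finset

/-- Vertices of the square lattice. -/
abbrev Vertex := ℤ × ℤ

/-- Edges: `(x, y, true)` joins `(x, y)` to `(x + 1, y)` and `(x, y, false)` joins `(x, y)` to
`(x, y + 1)`. -/
abbrev Edge := ℤ × ℤ × Bool

/-- Configurations (`true` = open). -/
abbrev Conf := Edge → Bool

/-- First endpoint of an edge. -/
def src (e : Edge) : Vertex := (e.1, e.2.1)

/-- Second endpoint of an edge. -/
def tgt (e : Edge) : Vertex := if e.2.2 then (e.1 + 1, e.2.1) else (e.1, e.2.1 + 1)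

/-- Critical bond percolation: independent fair coins on the edges. -/
noncomputable def perc : MeasureTheory.Measure Conf :=
  MeasureTheory.Measure.infinitePi (fun _ : Edge => (PMF.uniformOfFintype Bool).toMeasure)

/-- `u` and `v` are joined by an edge of `F`. -/
def Adj (F : Set Edge) (u v : Vertex) : Prop :=
  ∃ e ∈ F, (src e = u ∧ tgt e = v) ∨ (src e = v ∧ tgt e = u)

/-- The open edges with both endpoints in `T`. -/
def openIn (T : Set Vertex) (ω : Conf) : Set Edge := {e | ω e = true ∧ src e ∈ T ∧ tgt e ∈ T}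

/-- `u` and `v` are joined by an open path with all its edges in `T`. -/
def Conn (T : Set Vertex) (ω : Conf) (u v : Vertex) : Prop :=
  Relation.ReflTransGen (Adj (openIn T ω)) u v

/-- The box of radius `R` of the quarter-plane. -/
def quarterBox (R : ℕ) : Set Vertex :=
  {v | v.2 ≤ v.1 ∧ -1 ≤ v.1 + v.2 ∧ |v.1| ≤ (R : ℤ) ∧ |v.2| ≤ (R : ℤ)}

/-- The half-infinite strip of width `2 n + 2`. -/
def strip (n : ℕ) : Set Vertex := {v | v.2 ≤ v.1 ∧ -1 ≤ v.1 + v.2 ∧ v.1 + v.2 ≤ 2 * n + 1}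

/-- The `j` arm event at the corner. The `k = ⌊(j + 1) / 2⌋` boundary vertices `(0, 0), …, (k-1, k-1)`
are in different open clusters of the box, each of them reaches sup-distance `R`, and, if `j` is even,
these clusters do not contain any other vertex `(l, l)` of the side `y = x`. -/
def Arms (j R : ℕ) (ω : Conf) : Prop :=
  (∀ i i' : ℕ, i < (j + 1) / 2 → i' < (j + 1) / 2 → i ≠ i' →
    ¬ Conn (quarterBox R) ω ((i : ℤ), (i : ℤ)) ((i' : ℤ), (i' : ℤ))) ∧
  (∀ i : ℕ, i < (j + 1) / 2 → ∃ y : Vertex, max |y.1| |y.2| = (R : ℤ) ∧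
    Conn (quarterBox R) ω ((i : ℤ), (i : ℤ)) y) ∧
  (j % 2 = 0 → ∀ i l : ℕ, i < (j + 1) / 2 → (j + 1) / 2 ≤ l → l ≤ R →
    ¬ Conn (quarterBox R) ω ((i : ℤ), (i : ℤ)) ((l : ℤ), (l : ℤ)))

/-- The corresponding event in the half-infinite strip, whose end `y = x` has the vertices
`(0, 0), …, (n, n)`: the `k = ⌊(j + 1) / 2⌋` vertices at the left corner are in different clusters, each
of them contains one of the `k` vertices at the right corner, and, if `j` is even, none of the other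
vertices of the end. -/
def StripArms (j n : ℕ) (ω : Conf) : Prop :=
  (∀ i i' : ℕ, i < (j + 1) / 2 → i' < (j + 1) / 2 → i ≠ i' →
    ¬ Conn (strip n) ω ((i : ℤ), (i : ℤ)) ((i' : ℤ), (i' : ℤ))) ∧
  (∀ i : ℕ, i < (j + 1) / 2 → ∃ i' : ℕ, i' < (j + 1) / 2 ∧
    Conn (strip n) ω ((i : ℤ), (i : ℤ)) ((n : ℤ) - i', (n : ℤ) - i')) ∧
  (j % 2 = 0 → ∀ i l : ℕ, i < (j + 1) / 2 → (j + 1) / 2 ≤ l → l + (j + 1) / 2 ≤ n →
    ¬ Conn (strip n) ω ((i : ℤ), (i : ℤ)) ((l : ℤ), (l : ℤ)))

/-- The products which appear in the exact formula. -/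
noncomputable def D (t M : ℕ) : ℝ := ∏ i ∈ Finset.range M,
  (((2 * t + 3 * i + 2 : ℕ) : ℝ) * (i + 1).factorial *
      ∏ s ∈ Finset.range (i + 1), (((2 * t + 3 + 4 * i + 2 * s) * (2 * t + 1 + 2 * i + s) : ℕ) : ℝ)) /
    ((2 * i + 2).factorial * ∏ s ∈ Finset.range (i + 2), ((2 * t + 1 + 2 * i + 2 * s : ℕ) : ℝ))

theorem openIn_quarter (R : ℕ) (ω : Conf) :
    openIn (quarterBox R) ω = {e | ω e = true} ∩ Pool.Agent.W808.KC.qbx (R : ℤ) := by
  ext ⟨x, y, b⟩
  unfold openIn quarterBox Pool.Agent.W808.KC.qbx H906.Cyl.dco Pool.Agent.H160R2.ML.nm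
  simp only [Set.mem_ofPred_eq, Set.mem_inter_iff, max_le_iff, abs_le]
  cases b
  · simp only [src, tgt, H974.src, H974.tgt, Bool.false_eq_true, if_false]
    constructor
    · rintro ⟨h1, h2, h3⟩
      exact ⟨h1, by omega⟩
    · rintro ⟨h1, h2⟩
      exact ⟨h1, by omega, by omega⟩
  · simp only [src, tgt, H974.src, H974.tgt, if_true]
    constructor
    · rintro ⟨h1, h2, h3⟩
      exact ⟨h1, by omega⟩
    · rintro ⟨h1, h2⟩
      exact ⟨h1, by omega, by omega⟩

theorem openIn_strip (n : ℕ) (ω : Conf) :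
    openIn (strip n) ω = {e | ω e = true} ∩ Pool.Agent.W808.KC.Ss n := by
  ext ⟨x, y, b⟩
  unfold openIn strip Pool.Agent.W808.KC.Ss H906.Cyl.dco
  simp only [Set.mem_ofPred_eq, Set.mem_inter_iff]
  cases b
  · simp only [src, tgt, Bool.false_eq_true, if_false]
    constructor
    · rintro ⟨h1, h2, h3⟩
      exact ⟨h1, by omega⟩
    · rintro ⟨h1, h2⟩
      exact ⟨h1, by omega, by omega⟩
  · simp only [src, tgt, if_true]
    constructor
    · rintro ⟨h1, h2, h3⟩
      exact ⟨h1, by omega⟩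
    · rintro ⟨h1, h2⟩
      exact ⟨h1, by omega, by omega⟩

theorem arms_iff (j R : ℕ) (ω : Conf) :
    Arms j R ω ↔ Pool.Agent.W808.KC.SEq (j + 1) (R : ℤ) {e | ω e = true} := by
  unfold Arms Pool.Agent.W808.KC.SEq Conn
  rw [openIn_quarter]
  have h : (j + 1) % 2 = 1 ↔ j % 2 = 0 := by omega
  rw [h]
  constructor
  · rintro ⟨h1, h2, h3⟩
    exact ⟨h1, h2, fun hj i l hi hl hR => h3 hj i l hi hl (by exact_mod_cast hR)⟩
  · rintro ⟨h1, h2, h3⟩
    exact ⟨h1, h2, fun hj i l hi hl hR => h3 hj i l hi hl (by exact_mod_cast hR)⟩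

theorem stripArms_iff (j n : ℕ) (ω : Conf) :
    StripArms j n ω ↔ Pool.Agent.W808.KC.P0 n (j + 1) {e | ω e = true} := by
  unfold StripArms Pool.Agent.W808.KC.P0 Conn
  rw [openIn_strip]
  have h : (j + 1) % 2 = 1 ↔ j % 2 = 0 := by omega
  rw [h]
  exact Iff.rfl

theorem arms_prob (j R : ℕ) : perc.real {ω | Arms j R ω} = Pool.Agent.W808.KC.sPq (j + 1) R := by
  have h1 := Pool.Agent.W808.KC.TINF.perc_event (H974.boxE R)
    (fun F => Pool.Agent.W808.KC.SEq (j + 1) (R : ℤ) (↑F : Set Edge))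
  unfold Pool.Agent.W808.KC.sPq
  rw [← h1]
  have h2 : {ω : Conf | Arms j R ω} = {ω : Conf | Pool.Agent.W808.KC.SEq (j + 1) (R : ℤ)
      (↑(Pool.Agent.W808.KC.TINF.op (H974.boxE R) ω) : Set Edge)} := by
    ext ω
    simp only [Set.mem_ofPred_eq]
    rw [arms_iff]
    refine Pool.Agent.W808.KC.TMON.seq_congr fun e he => ?_
    have he' := Pool.Agent.W808.KC.TMON.qbx_sub_box he
    simp only [Set.mem_ofPred_eq, Finset.mem_coe, Pool.Agent.W808.KC.TINF.op, Finset.mem_filter]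
    exact ⟨fun h => ⟨he', h⟩, fun h => h.2⟩
  rw [h2]
  rfl

/-- **All numbers of arms at a corner.** For every `j ≥ 1` the probability of `j` alternating arms from
the corner of the quarter-plane to distance `R` is of order `R ^ (- j (j + 1) / 3)`. In the
half-infinite strip of width `2 n + 2`, for all `1 ≤ j ≤ n`, the probability of `j` alternating arms
between the two corners is `D (2 j + 2) (n - j) / D 2 n`. -/
theorem result :
    (∀ j : ℕ, 1 ≤ j → ∃ c C : ℝ, 0 < c ∧ 0 < C ∧ ∀ R : ℕ, j + 1 ≤ R →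
      c * (R : ℝ) ^ (-((j : ℝ) * (j + 1) / 3)) ≤ perc.real {ω | Arms j R ω} ∧
      perc.real {ω | Arms j R ω} ≤ C * (R : ℝ) ^ (-((j : ℝ) * (j + 1) / 3))) ∧
    (∀ j n : ℕ, 1 ≤ j → j ≤ n →
      perc.real {ω | StripArms j n ω} = D (2 * j + 2) (n - j) / D 2 n) := by
  refine ⟨fun j hj => ?_, fun j n hj hn => ?_⟩
  · obtain ⟨c, C, hc, hC, h⟩ := Pool.Agent.W808.KC.a_SHARP (j + 1) (by omega)
    refine ⟨c, C, hc, hC, fun R hR => ?_⟩
    have e : (-((j : ℝ) * (j + 1) / 3)) = -(((j + 1 : ℕ) : ℝ) * (((j + 1 : ℕ) : ℝ) - 1) / 3) := by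
      push_cast
      ring
    rw [arms_prob, e]
    exact h R hR
  · have h := Pool.Agent.W808.KC.a_INF n (j + 1) (by omega) (by omega)
    have h2 : {ω : Conf | StripArms j n ω} =
        {ω : Conf | Pool.Agent.W808.KC.P0 n (j + 1) {e | ω e = true}} := by
      ext ω
      exact stripArms_iff j n ω
    rw [h2]
    refine Eq.trans h ?_
    have e1 : 2 * (j + 1) = 2 * j + 2 := by ring
    have e2 : n + 1 - (j + 1) = n - j := by omega
    have e3 : j + 1 + (n - j) - 1 = n := by omega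
    unfold Pool.Agent.W808.KC.Pk
    rw [e2, e3, e1]
    rfl

end Pool.Agent.Results.MP_fe58d8_pr.CornerArms
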