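import Pool.Agent.H731R6.Bc.HP5

/-!
Critical bond percolation in a half-plane of the square lattice (rotated by 45 degrees): the exact law
of the number of boundary vertices in the open cluster of a boundary vertex.

Vertices `(a, t)`, `a : ℤ` (column), `t : ℕ` (depth), `a + t` even; the cell `(a, t)` between the
columns `a`, `a + 1` and the depths `t`, `t + 1` contains exactly one edge of the lattice, the
diagonal between its two vertices.
-/

set_option autoImplicit false

namespace Pool.Agent.Results.MP_fe58d8_pr.HalfPlaneBoundaryClusters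

open MeasureTheory Filter Topology

/-- `p` (upper end) and `r` (lower end) are the ends of an open edge of the half-plane; the bit of
the cell `(a, t)` says whether its edge is open -/
def OpenAdj (ω : ℤ × ℕ → Bool) (p r : ℤ × ℕ) : Prop :=
  ∃ (a : ℤ) (t : ℕ), ω (a, t) = true ∧
    ((Even (a + t) ∧ p = (a, t) ∧ r = (a + 1, t + 1)) ∨
      (¬ Even (a + t) ∧ p = (a + 1, t) ∧ r = (a, t + 1)))

/-- independent fair coins: every edge is open with probability `1/2` -/
noncomputable def perc : Measure (ℤ × ℕ → Bool) :=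
  Measure.infinitePi (fun _ => (PMF.uniformOfFintype Bool).toMeasure)

/-- the boundary vertices in the open cluster of the boundary vertex `(0, 0)` -/
def boundary (ω : ℤ × ℕ → Bool) : Set ℤ := {b | Relation.EqvGen (OpenAdj ω) (0, 0) (b, 0)}

/-- Wallis: `√k (2k choose k) / 4^k → 1 / √π` -/
theorem central : Tendsto (fun k : ℕ => Real.sqrt k * (((2 * k).choose k : ℝ) / 4 ^ k)) atTop
    (𝓝 (1 / Real.sqrt Real.pi)) := by
  have h1 : ∀ k : ℕ, Real.sqrt k * (((2 * k).choose k : ℝ) / 4 ^ k) =
      Real.sqrt ((k : ℝ) / (2 * k + 1) / Real.Wallis.W k) := by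
    intro k
    have hc : (0 : ℝ) ≤ ((2 * k).choose k : ℝ) / 4 ^ k := by positivity
    have hk : ((2 * k).choose k : ℝ) = ((2 * k).factorial : ℝ) / ((k.factorial : ℝ) ^ 2) := by
      have h := Nat.choose_mul_factorial_mul_factorial (n := 2 * k) (k := k) (by omega)
      have h2 : 2 * k - k = k := by omega
      rw [h2] at h
      have h3 : (k.factorial : ℝ) ≠ 0 := by exact_mod_cast Nat.factorial_ne_zero k
      field_simp
      have h4 : (((2 * k).choose k * k.factorial * k.factorial : ℕ) : ℝ) =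
          ((2 * k).factorial : ℝ) := by rw [h]
      push_cast at h4
      linarith
    have e : (k : ℝ) / (2 * k + 1) / Real.Wallis.W k =
        k * (((2 * k).choose k : ℝ) / 4 ^ k) ^ 2 := by
      rw [Real.Wallis.W_eq_factorial_ratio, hk]
      have h3 : (k.factorial : ℝ) ≠ 0 := by exact_mod_cast Nat.factorial_ne_zero k
      have h4 : ((2 * k).factorial : ℝ) ≠ 0 := by exact_mod_cast Nat.factorial_ne_zero (2 * k)
      have h5 : (2 * (k : ℝ) + 1) ≠ 0 := by positivity
      have h6 : (2 : ℝ) ^ (4 * k) = (4 ^ k) ^ 2 := by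
        rw [← pow_mul, show (4 : ℝ) = 2 ^ 2 by norm_num, ← pow_mul]
        congr 1
        ring
      rw [h6]
      field_simp
    rw [e, Real.sqrt_mul (Nat.cast_nonneg k), Real.sqrt_sq hc]
  simp only [h1]
  have h2 : Tendsto (fun k : ℕ => (k : ℝ) / (2 * k + 1)) atTop (𝓝 (1 / 2)) := by
    have h3 : Tendsto (fun k : ℕ => 1 / (2 + 1 / (k : ℝ))) atTop (𝓝 (1 / (2 + 0))) := by
      refine Tendsto.div tendsto_const_nhds ?_ (by norm_num)
      exact tendsto_const_nhds.add tendsto_one_div_atTop_nhds_zero_nat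
    rw [add_zero] at h3
    refine h3.congr' ?_
    filter_upwards [eventually_gt_atTop 0] with k hk
    have : (k : ℝ) ≠ 0 := by positivity
    field_simp
  have h3 := (h2.div Real.Wallis.tendsto_W_nhds_pi_div_two (by positivity))
  have h4 := (Real.continuous_sqrt.tendsto _).comp h3
  have e : Real.sqrt (1 / 2 / (Real.pi / 2)) = 1 / Real.sqrt Real.pi := by
    rw [show (1 : ℝ) / 2 / (Real.pi / 2) = 1 / Real.pi by field_simp, Real.sqrt_div (by norm_num),
      Real.sqrt_one]
  rw [e] at h4
  exact h4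

/-- the exact law, and the exponent `1/2` with its amplitude -/
theorem result :
    (∀ k : ℕ, 1 ≤ k → perc.real {ω | (k : ℕ∞) ≤ (boundary ω).encard} =
      ((2 * k).choose k : ℝ) * (3 * k - 1) / ((2 * k - 1) * 4 ^ k)) ∧
    Tendsto (fun k : ℕ => Real.sqrt k * perc.real {ω | (k : ℕ∞) ≤ (boundary ω).encard}) atTop
      (𝓝 (3 / (2 * Real.sqrt Real.pi))) := by
  have hlaw : ∀ k : ℕ, 1 ≤ k → perc.real {ω | (k : ℕ∞) ≤ (boundary ω).encard} =
      ((2 * k).choose k : ℝ) * (3 * k - 1) / ((2 * k - 1) * 4 ^ k) := fun k hk =>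
    H731B.half_plane hk
  refine ⟨hlaw, ?_⟩
  have h2 : Tendsto (fun k : ℕ => (3 * (k : ℝ) - 1) / (2 * k - 1)) atTop (𝓝 (3 / 2)) := by
    have h3 : Tendsto (fun k : ℕ => (3 - 1 / (k : ℝ)) / (2 - 1 / (k : ℝ))) atTop
        (𝓝 ((3 - 0) / (2 - 0))) := by
      refine Tendsto.div ?_ ?_ (by norm_num)
      · exact tendsto_const_nhds.sub tendsto_one_div_atTop_nhds_zero_nat
      · exact tendsto_const_nhds.sub tendsto_one_div_atTop_nhds_zero_nat
    rw [sub_zero, sub_zero] at h3
    refine h3.congr' ?_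
    filter_upwards [eventually_gt_atTop 0] with k hk
    have hk0 : (k : ℝ) ≠ 0 := by positivity
    have hk1 : (1 : ℝ) ≤ k := by exact_mod_cast hk
    have hk2 : (2 * (k : ℝ) - 1) ≠ 0 := by linarith
    have hk3 : (2 - 1 / (k : ℝ)) ≠ 0 := by
      have : 1 / (k : ℝ) ≤ 1 := by rw [div_le_one (by positivity)]; exact hk1
      linarith
    field_simp
  have h3 := central.mul h2
  have e : 1 / Real.sqrt Real.pi * (3 / 2) = 3 / (2 * Real.sqrt Real.pi) := by
    have : Real.sqrt Real.pi ≠ 0 := (Real.sqrt_pos.mpr Real.pi_pos).ne'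
    field_simp
  rw [e] at h3
  refine h3.congr' ?_
  filter_upwards [eventually_ge_atTop 1] with k hk
  rw [hlaw k hk]
  have hk1 : (1 : ℝ) ≤ k := by exact_mod_cast hk
  have hk2 : (2 * (k : ℝ) - 1) ≠ 0 := by linarith
  field_simp

end Pool.Agent.Results.MP_fe58d8_pr.HalfPlaneBoundaryClusters
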